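import Pool.Agent.E8helper2.PS.Stm

/-!
# Project PS (MP_64ccd3_an), piece BES: Bessel's inequality (helper9)
-/

set_option autoImplicit false
open MeasureTheory Filter Topology Complex

namespace Pool.Agent.E8helper9.PS

open Pool.Agent.E8helper2.PS

theorem int_exp (k : ℤ) (x : ℝ) (hk : k ≠ 0) :
    ∫ θ in x..(x + 2 * Real.pi), Complex.exp (I * k * (θ : ℂ)) = 0 := by
  have hc : I * (k : ℂ) ≠ 0 := mul_ne_zero I_ne_zero (by exact_mod_cast hk)
  rw [integral_exp_mul_complex hc]
  have h : Complex.exp (I * k * ((x + 2 * Real.pi : ℝ) : ℂ)) = Complex.exp (I * k * (x : ℂ)) := by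
    have e : I * k * ((x + 2 * Real.pi : ℝ) : ℂ) = I * k * x + k * (2 * Real.pi * I) := by
      push_cast; ring
    rw [e, Complex.exp_add, Complex.exp_int_mul_two_pi_mul_I, mul_one]
  rw [h, sub_self, zero_div]

/-- the trigonometric polynomial -/
noncomputable def P (F : Finset ℕ) (c : ℕ → ℂ) (θ : ℝ) : ℂ :=
  ∑ N ∈ F, c N * Complex.exp (I * N * (θ : ℂ))

theorem P_cont (F : Finset ℕ) (c : ℕ → ℂ) : Continuous (P F c) := by
  unfold P
  fun_prop

theorem conj_exp (N : ℕ) (θ : ℝ) : (starRingEnd ℂ) (Complex.exp (I * N * (θ : ℂ))) =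
    Complex.exp (-(I * N * (θ : ℂ))) := by
  rw [← Complex.exp_conj]
  congr 1
  simp

theorem parseval (F : Finset ℕ) (c : ℕ → ℂ) (x : ℝ) :
    ∫ θ in x..(x + 2 * Real.pi), ‖P F c θ‖ ^ 2 = 2 * Real.pi * ∑ N ∈ F, ‖c N‖ ^ 2 := by
  have h1 : ((∫ θ in x..(x + 2 * Real.pi), ‖P F c θ‖ ^ 2 : ℝ) : ℂ) =
      ((2 * Real.pi * ∑ N ∈ F, ‖c N‖ ^ 2 : ℝ) : ℂ) := by
    rw [← intervalIntegral.integral_ofReal]
    have h2 : ∀ θ : ℝ, ((‖P F c θ‖ ^ 2 : ℝ) : ℂ) =
        ∑ N ∈ F, ∑ N' ∈ F, c N * (starRingEnd ℂ) (c N') *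
          Complex.exp (I * (((N : ℤ) - (N' : ℤ) : ℤ) : ℂ) * (θ : ℂ)) := by
      intro θ
      rw [← Complex.normSq_eq_norm_sq, ← Complex.mul_conj]
      unfold P
      rw [map_sum, Finset.sum_mul_sum]
      refine Finset.sum_congr rfl fun N _ => Finset.sum_congr rfl fun N' _ => ?_
      rw [map_mul, conj_exp]
      have e : I * (((N : ℤ) - (N' : ℤ) : ℤ) : ℂ) * (θ : ℂ) =
          I * N * θ + -(I * N' * θ) := by
        push_cast; ring
      rw [e, Complex.exp_add]
      ring
    simp_rw [h2]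
    rw [intervalIntegral.integral_finsetSum (fun N _ => by
      apply Continuous.intervalIntegrable
      fun_prop)]
    push_cast
    rw [Finset.mul_sum]
    refine Finset.sum_congr rfl fun N hN => ?_
    rw [intervalIntegral.integral_finsetSum (fun N' _ => by
      apply Continuous.intervalIntegrable
      fun_prop)]
    rw [Finset.sum_eq_single N]
    · rw [sub_self]
      simp only [mul_zero, zero_mul, Complex.exp_zero, mul_one]
      rw [intervalIntegral.integral_const, Complex.mul_conj, Complex.normSq_eq_norm_sq]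
      simp
    · intro N' _ hne
      rw [intervalIntegral.integral_const_mul]
      have hk : ((N : ℤ) - (N' : ℤ) : ℤ) ≠ 0 := by
        intro h
        apply hne
        omega
      have h3 := int_exp _ x hk
      push_cast at h3 ⊢
      rw [h3, mul_zero]
    · intro h
      exact absurd hN h
  exact_mod_cast h1

theorem t_BES : S_BES := by
  intro K x M h hK hKs hc hM hb F
  set c : ℕ → ℂ := fun N => ∫ θ in K, Complex.exp (-(I * N * (θ : ℂ))) * h θ with hcdef
  set S : ℝ := ∑ N ∈ F, ‖c N‖ ^ 2 with hS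
  have hS0 : 0 ≤ S := Finset.sum_nonneg fun N _ => by positivity
  have hPi := Real.pi_pos
  have hint : ∀ N : ℕ, IntegrableOn (fun θ : ℝ => Complex.exp (-(I * N * (θ : ℂ))) * h θ) K := by
    intro N
    refine IntegrableOn.mono_set ?_ hKs
    apply Continuous.integrableOn_Icc
    fun_prop
  have h1 : ∫ θ in K, h θ * (starRingEnd ℂ) (P F c θ) = (S : ℂ) := by
    have h2 : ∀ θ : ℝ, h θ * (starRingEnd ℂ) (P F c θ) =
        ∑ N ∈ F, (starRingEnd ℂ) (c N) * (Complex.exp (-(I * N * (θ : ℂ))) * h θ) := by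
      intro θ
      unfold P
      rw [map_sum, Finset.mul_sum]
      refine Finset.sum_congr rfl fun N _ => ?_
      rw [map_mul, conj_exp]
      ring
    simp_rw [h2]
    rw [integral_finsetSum _ (fun N _ => (hint N).const_mul _)]
    rw [hS]
    push_cast
    refine Finset.sum_congr rfl fun N _ => ?_
    rw [integral_const_mul]
    show (starRingEnd ℂ) (c N) * c N = _
    rw [mul_comm, Complex.mul_conj, Complex.normSq_eq_norm_sq]
    push_cast
    rfl
  have hPc := P_cont F c
  have hg : Continuous (fun θ : ℝ => Real.pi * M ^ 2 + ‖P F c θ‖ ^ 2 / (4 * Real.pi)) := by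
    fun_prop
  have hgI : IntegrableOn (fun θ : ℝ => Real.pi * M ^ 2 + ‖P F c θ‖ ^ 2 / (4 * Real.pi))
      (Set.Icc x (x + 2 * Real.pi)) := hg.integrableOn_Icc
  have h3 : S ≤ ∫ θ in K, (Real.pi * M ^ 2 + ‖P F c θ‖ ^ 2 / (4 * Real.pi)) := by
    calc S = ‖(S : ℂ)‖ := by rw [Complex.norm_real, Real.norm_of_nonneg hS0]
      _ = ‖∫ θ in K, h θ * (starRingEnd ℂ) (P F c θ)‖ := by rw [h1]
      _ ≤ ∫ θ in K, ‖h θ * (starRingEnd ℂ) (P F c θ)‖ := norm_integral_le_integral_norm _
      _ ≤ ∫ θ in K, (Real.pi * M ^ 2 + ‖P F c θ‖ ^ 2 / (4 * Real.pi)) := by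
        refine setIntegral_mono_on ?_ (hgI.mono_set hKs) hK ?_
        · refine IntegrableOn.mono_set ?_ hKs
          apply Continuous.integrableOn_Icc
          have : Continuous fun θ : ℝ => (starRingEnd ℂ) (P F c θ) :=
            Complex.continuous_conj.comp hPc
          fun_prop
        · intro θ hθ
          rw [norm_mul, RCLike.norm_conj]
          have h4 := hb θ hθ
          have h5 : ‖h θ‖ * ‖P F c θ‖ ≤ M * ‖P F c θ‖ := by gcongr
          refine h5.trans ?_
          have h6 : 0 ≤ (2 * Real.pi * M - ‖P F c θ‖) ^ 2 := sq_nonneg _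
          have h7 : Real.pi * M ^ 2 + ‖P F c θ‖ ^ 2 / (4 * Real.pi) - M * ‖P F c θ‖ =
              (2 * Real.pi * M - ‖P F c θ‖) ^ 2 / (4 * Real.pi) := by
            field_simp
            ring
          have h8 : 0 ≤ (2 * Real.pi * M - ‖P F c θ‖) ^ 2 / (4 * Real.pi) := by positivity
          linarith
  have h4 : ∫ θ in K, (Real.pi * M ^ 2 + ‖P F c θ‖ ^ 2 / (4 * Real.pi)) ≤
      ∫ θ in Set.Icc x (x + 2 * Real.pi), (Real.pi * M ^ 2 + ‖P F c θ‖ ^ 2 / (4 * Real.pi)) := by
    refine setIntegral_mono_set hgI ?_ hKs.eventuallyLE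
    exact Eventually.of_forall fun θ => by
      show (0 : ℝ) ≤ _
      positivity
  have h5 : ∫ θ in Set.Icc x (x + 2 * Real.pi),
      (Real.pi * M ^ 2 + ‖P F c θ‖ ^ 2 / (4 * Real.pi)) = 2 * Real.pi ^ 2 * M ^ 2 + S / 2 := by
    rw [integral_Icc_eq_integral_Ioc, ← intervalIntegral.integral_of_le (by linarith),
      intervalIntegral.integral_add (by apply Continuous.intervalIntegrable; fun_prop)
        (by apply Continuous.intervalIntegrable; fun_prop),
      intervalIntegral.integral_const, intervalIntegral.integral_div, parseval]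
    rw [← hS, smul_eq_mul]
    field_simp
    ring
  have h6 : S ≤ 2 * Real.pi ^ 2 * M ^ 2 + S / 2 := h3.trans (h4.trans h5.le)
  show S ≤ (2 * Real.pi * M) ^ 2
  nlinarith

end Pool.Agent.E8helper9.PS
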